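import Pool.Agent.Lib.MP_a78e1f_lc.U.Iface
import Pool.Agent.Lib.MP_e6fef2_lc.Iteration
import Pool.Agent.Lib.MP_6d445e_gt.H20.Idw

/-!
# COL: the points of a stage are enumerated in order type `ω₁` at a later stage
-/

universe u

open Cardinal Filter

namespace Pool.Agent.Lib.MP_a78e1f_lc.H70

open Pool.Agent.Lib.MP_100a6c_lc
open Pool.Agent.Lib.MP_e6fef2_lc
open Pool.Agent.Lib.MP_6d445e_gt (Idw Ult ae IsMil)
open Pool.Agent.Lib.MP_e6fef2_lc.H57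

section

variable {I : Type u} [LinearOrder I]

/-- The iterates of `su`. -/
def pt (su : I → I) (k : I) : ℕ → I
  | 0 => k
  | n + 1 => su (pt su k n)

/-- The thread. -/
noncomputable def th {A : I → Type u} [∀ i, CompleteBooleanAlgebra (A i)]
    (f : ∀ i j, A i → A j) (su : I → I) (k : I) (q0 : A k) (E : ∀ k, ℕ → A (su k)) :
    ∀ n, A (pt su k n)
  | 0 => q0
  | n + 1 => f (pt su k n) (su (pt su k n)) (th f su k q0 E n) ⊓ E (pt su k n) n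

/-- A strictly increasing sequence of length `ω₁`. -/
theorem exists_seq {κ : Cardinal.{u}} (hκ : ℵ₀ < κ) (hW : #W.{u} < κ)
    (hb : ∀ Z : Set I, #Z < κ → ∃ i, ∀ z ∈ Z, z < i) (i : I) :
    ∃ s : W.{u} → I, StrictMono s ∧ ∀ ξ, i < s ξ := by
  classical
  have hb' : ∀ (ξ : W.{u}) (g : Set.Iio ξ → I), ∃ k, i < k ∧ ∀ η, g η < k := by
    intro ξ g
    have h1 : #(insert i (Set.range g) : Set I) < κ := by
      refine lt_of_le_of_lt (mk_insert_le) ?_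
      refine add_lt_of_lt hκ.le ?_ (one_lt_aleph0.trans hκ)
      exact (mk_range_le).trans_lt ((mk_set_le _).trans_lt hW)
    obtain ⟨k, hk⟩ := hb _ h1
    exact ⟨k, hk _ (Set.mem_insert _ _), fun η => hk _ (Set.mem_insert_of_mem _ ⟨η, rfl⟩)⟩
  choose F hF1 hF2 using hb'
  have hwf : WellFounded (fun a b : W.{u} => a < b) := wellFounded_lt
  let s : W.{u} → I := hwf.fix fun ξ ih => F ξ fun η => ih η.1 η.2
  have hs : ∀ ξ, s ξ = F ξ fun η => s η.1 := fun ξ => hwf.fix_eq _ ξ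
  refine ⟨s, ?_, ?_⟩
  · intro η ξ h
    rw [hs ξ]
    exact hF2 ξ (fun η => s η.1) ⟨η, h⟩
  · intro ξ
    rw [hs ξ]
    exact hF1 _ _

end

/-- COL -/
theorem col : ColStatement.{u} := by
  classical
  intro κ I _ _ hI 𝒯 hBit A _ f B _ e hC i
  obtain ⟨hb, hW, -⟩ := (Pool.Agent.Lib.MP_6d445e_gt.H20.idw.{u}).2 κ I hI
  obtain ⟨-, hcb, -⟩ := all_idx.{u}.2.2
  have hch := hC.ch
  obtain ⟨s, hs, his⟩ := exists_seq hI.unc hW hb i
  -- the least strict upper bound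
  obtain ⟨j, hj1, hj2⟩ : ∃ j : I, (∀ ξ, s ξ < j) ∧ ∀ k, (∀ ξ, s ξ < k) → j ≤ k := by
    have hne : ({k | ∀ ξ, s ξ < k} : Set I).Nonempty := by
      obtain ⟨k, hk⟩ := hb (Set.range s) (mk_range_le.trans_lt hW)
      exact ⟨k, fun ξ => hk _ ⟨ξ, rfl⟩⟩
    have hwf : WellFounded (fun a b : I => a < b) := wellFounded_lt
    refine ⟨hwf.min _ hne, hwf.min_mem _ hne, fun k hk => ?_⟩
    exact not_lt.1 (hwf.not_lt_min (s := {k | ∀ ξ, s ξ < k}) hk)
  have hcof : ∀ k, k < j → ∃ ξ, k ≤ s ξ := by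
    intro k hk
    by_contra hcon
    push Not at hcon
    exact absurd (hj2 k hcon) (not_le.2 hk)
  have hnocov : ∀ k, ¬ k ⋖ j := by
    intro k hk
    obtain ⟨ξ, hξ⟩ := hcof k hk.1
    obtain ⟨δ, hδ⟩ := hcb {ξ} (Set.countable_singleton ξ)
    exact hk.2 (hξ.trans_lt (hs (hδ ξ rfl))) (hj1 δ)
  have hW0 : Nonempty W.{u} := by
    obtain ⟨δ, -⟩ := hcb ∅ Set.countable_empty
    exact ⟨δ⟩
  have hlim : Order.IsSuccLimit j := by
    obtain ⟨ξ⟩ := hW0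
    refine ⟨fun hmin => ?_, hnocov⟩
    exact (hmin (hj1 ξ).le).not_gt (hj1 ξ)
  -- successors
  have hsucc : ∀ k : I, ∃ k', k ⋖ k' := by
    intro k
    have hne : ({k' | k < k'} : Set I).Nonempty := by
      obtain ⟨k', hk'⟩ := hb {k} (by
        rw [mk_singleton]
        exact one_lt_aleph0.trans hI.unc)
      exact ⟨k', hk' k rfl⟩
    have hwf : WellFounded (fun a b : I => a < b) := wellFounded_lt
    refine ⟨hwf.min _ hne, hwf.min_mem _ hne, fun c hc hc' => ?_⟩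
    exact hwf.not_lt_min (s := {k' | k < k'}) hc hc'
  choose su hsu using hsucc
  have hsuj : ∀ k, k < j → su k < j := by
    intro k hk
    refine lt_of_le_of_ne ?_ ?_
    · by_contra hcon
      exact (hsu k).2 hk (not_le.1 hcon)
    · intro heq
      exact hnocov k (heq ▸ hsu k)
  have hpt : ∀ k, k < j → ∀ n, pt su k n < j := by
    intro k hk n
    induction n with
    | zero => exact hk
    | succ n ih => exact hsuj _ ih
  have hmono : ∀ k, Monotone (pt su k) := fun k => monotone_nat_of_le_succ fun n => (hsu _).1.le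
  -- the free bits
  have hbit : ∀ k : I, ∃ β : A (su k), prj (f k (su k)) β = ⊤ ∧ prj (f k (su k)) βᶜ = ⊤ := by
    intro k
    obtain ⟨φ, hφ, -, hφ2⟩ := hC.succ k (su k) (hsu k)
    obtain ⟨b, hb1, hb2⟩ := hBit (A k)
    have h1 : ∀ c : tC 𝒯 (A k), prj (f k (su k)) (φ c) = prj (tE 𝒯 (A k)) c := by
      intro c
      unfold prj
      congr 1
      ext a
      change φ c ≤ f k (su k) a ↔ c ≤ tE 𝒯 (A k) a
      rw [← hφ2, ce_le hφ]
    exact ⟨φ b, (h1 b).trans hb1, by rw [← hφ.compl, h1, hb2]⟩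
  choose β hβ1 hβ2 using hbit
  let cx : W.{u} → ℕ → A j := fun ξ n => f (su (pt su (s ξ) n)) j (β (pt su (s ξ) n))
  obtain ⟨ξ0⟩ := hW0
  have hij : i ≤ j := (his ξ0).le.trans (hj1 ξ0).le
  refine ⟨j, cx, hij, fun r => ?_⟩
  by_contra hcon
  have hd : (⨆ ξ, eqr (fun n => f i j (r n)) (cx ξ))ᶜ ≠ ⊥ := fun h => hcon (compl_eq_bot.1 h)
  obtain ⟨d, hdle, hdne, S, hSc, hSne, hSj, hdS⟩ := hC.dp j hlim _ hd
  -- the stage
  obtain ⟨ξ, hξ⟩ : ∃ ξ, ∀ k ∈ S, k ≤ s ξ := by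
    have h1 : ∀ k : S, ∃ ξ, k.1 ≤ s ξ := fun k => hcof k.1 (hSj k.1 k.2)
    choose g hg using h1
    have : Countable S := hSc
    obtain ⟨δ, hδ⟩ := hcb (Set.range g) (Set.countable_range g)
    exact ⟨δ, fun k hk => (hg ⟨k, hk⟩).trans (hs (hδ _ ⟨⟨k, hk⟩, rfl⟩)).le⟩
  have hiξ : i ≤ s ξ := (his ξ).le
  set q0 : A (s ξ) := prj (f (s ξ) j) d with hq0
  have hcej : ∀ k, k ≤ j → IsCE (f k j) := fun k hk => hch.ce k j hk
  have hdq : f (s ξ) j q0 ≤ d := by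
    refine le_trans ?_ (le_of_eq hdS.symm)
    refine le_iInf₂ fun k hk => ?_
    rw [← hch.comp k (s ξ) j (hξ k hk) (hj1 ξ).le, ce_le (hcej _ (hj1 ξ).le),
      ← prj_le (hch.ce _ _ (hξ k hk)), hq0, ch_prj_comp hch (hξ k hk) (hj1 ξ).le]
  have hq0ne : q0 ≠ ⊥ := fun h => hdne ((prj_eq_bot (hcej _ (hj1 ξ).le) d).1 h)
  let E : ∀ k, ℕ → A (su k) := fun k n =>
    (f i (su k) (r n) ⊓ β k) ⊔ ((f i (su k) (r n))ᶜ ⊓ (β k)ᶜ)
  have hE : ∀ k, i ≤ k → ∀ n, prj (f k (su k)) (E k n) = ⊤ := by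
    intro k hk n
    have hce := hch.ce k (su k) (hsu k).1.le
    have h1 : f i (su k) (r n) = f k (su k) (f i k (r n)) :=
      (hch.comp i k (su k) hk (hsu k).1.le _).symm
    change prj (f k (su k)) ((f i (su k) (r n) ⊓ β k) ⊔ ((f i (su k) (r n))ᶜ ⊓ (β k)ᶜ)) = ⊤
    rw [h1, ← hce.compl, (prj_gc hce).l_sup, prj_inf' hce, prj_inf' hce, hβ1, hβ2,
      inf_top_eq, inf_top_eq, sup_compl_eq_top]
  have hpi : ∀ n, i ≤ pt su (s ξ) n := fun n =>
    hiξ.trans (hmono (s ξ) (Nat.zero_le n))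
  have hth : IsTh f (pt su (s ξ)) (th f su (s ξ) q0 E) := by
    intro n
    have hce := hch.ce (pt su (s ξ) n) (su (pt su (s ξ) n)) (hsu _).1.le
    have h1 : prj (f (pt su (s ξ) n) (su (pt su (s ξ) n)))
        (f (pt su (s ξ) n) (su (pt su (s ξ) n)) (th f su (s ξ) q0 E n) ⊓ E (pt su (s ξ) n) n) =
        th f su (s ξ) q0 E n := by
      rw [prj_inf' hce, hE _ (hpi n), inf_top_eq]
    exact h1
  have htp := hC.tp j hlim (pt su (s ξ)) (hmono _) (fun n => (hpt _ (hj1 ξ) n).le)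
    (th f su (s ξ) q0 E) hth
  set x : A j := ⨅ n, f (pt su (s ξ) n) j (th f su (s ξ) q0 E n) with hx
  have hxne : x ≠ ⊥ := by
    intro h
    rw [h] at htp
    have h1 : prj (f (s ξ) j) (⊥ : A j) = q0 := htp
    rw [prj_bot (hcej _ (hj1 ξ).le)] at h1
    exact hq0ne h1.symm
  have hx0 : x ≤ (⨆ ξ, eqr (fun n => f i j (r n)) (cx ξ))ᶜ :=
    (iInf_le _ 0).trans (hdq.trans hdle)
  have hx1 : x ≤ eqr (fun n => f i j (r n)) (cx ξ) := by
    refine le_iInf fun n => ?_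
    refine (iInf_le _ (n + 1)).trans ?_
    have hlt : su (pt su (s ξ) n) ≤ j := (hsuj _ (hpt _ (hj1 ξ) n)).le
    have hce := hcej _ hlt
    have h1 : f (su (pt su (s ξ) n)) j
        (f (pt su (s ξ) n) (su (pt su (s ξ) n)) (th f su (s ξ) q0 E n) ⊓ E (pt su (s ξ) n) n) ≤
        (f i j (r n) ⊓ cx ξ n) ⊔ ((f i j (r n))ᶜ ⊓ (cx ξ n)ᶜ) := by
      refine (ce_mono hce inf_le_right).trans ?_
      change f (su (pt su (s ξ) n)) j ((f i (su (pt su (s ξ) n)) (r n) ⊓ β (pt su (s ξ) n)) ⊔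
        ((f i (su (pt su (s ξ) n)) (r n))ᶜ ⊓ (β (pt su (s ξ) n))ᶜ)) ≤ _
      rw [ce_sup hce, ce_inf hce, ce_inf hce, hce.compl, hce.compl,
        hch.comp i _ j ((hpi n).trans (hsu _).1.le) hlt]
    exact h1
  have hx2 : x ≤ ⊥ := by
    rw [← inf_compl_eq_bot (a := ⨆ ξ, eqr (fun n => f i j (r n)) (cx ξ))]
    exact le_inf (hx1.trans (le_iSup (fun ξ => eqr (fun n => f i j (r n)) (cx ξ)) ξ)) hx0
  exact hxne (le_bot_iff.1 hx2)

end Pool.Agent.Lib.MP_a78e1f_lc.H70
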