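import Pool.Agent.Lib.MP_a78e1f_lc.U.Iface
import Pool.Agent.Lib.MP_a78e1f_lc.H97.Vc

/-!
# VF: from an embedding in `V^B` to a typed embedding
-/

universe u

open scoped symmDiff

namespace Pool.Agent.Lib.MP_a78e1f_lc.H70

open Pool.Agent.Lib.MP_100a6c_lc
open Pool.Agent.Lib.MP_e6fef2_lc
open BName
open H36 (om nn)

variable {B : Type u} [CompleteBooleanAlgebra B]

/-- The digits of a name of a point. -/
noncomputable def dg (y : BName B) (n : ℕ) : B := bmem (check (nn n)) y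

theorem agb_dg (y y' : BName B) (n : ℕ) :
    agb (VB B) (check (nn n)) y y' = agn n (dg y) (dg y') := by
  have h1 : Ext (fun k : BName B => (VB B).mem k y ⇔ (VB B).mem k y') :=
    (ext_VBmem_left _).bihimp (ext_VBmem_left _)
  rw [agb, iInf_VBcheck h1, agn]
  refine le_antisymm (le_iInf fun k => le_iInf fun hk => ?_) (le_iInf fun z => le_iInf fun hz => ?_)
  · exact (iInf_le_of_le (nn k) (iInf_le_of_le (H36.nn_mem_nn hk) le_rfl))
  · obtain ⟨k, hk, rfl⟩ := H36.mem_nn.1 hz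
    exact iInf_le_of_le k (iInf_le_of_le hk le_rfl)

theorem eqr_symm (a b : ℕ → B) : eqr a b = eqr b a := by
  rw [H97.eqr_eq, H97.eqr_eq]
  exact iInf_congr fun n => bihimp_comm _ _

theorem agn_of {Δ : B} {a b c d : ℕ → B} {n : ℕ} (h1 : Δ ≤ eqr a b) (h2 : Δ ≤ agn n b c)
    (h3 : Δ ≤ eqr d c) : Δ ≤ agn n a d := by
  rw [H97.eqr_eq] at h1 h3
  refine le_iInf fun k => le_iInf fun hk => ?_
  have e1 := le_bihimp_iff'.1 (h1.trans (iInf_le _ k))
  have e2 := le_bihimp_iff'.1 (h2.trans (iInf_le_of_le k (iInf_le _ hk)))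
  have e3 := le_bihimp_iff'.1 (h3.trans (iInf_le _ k))
  exact le_bihimp_iff'.2 (e1.trans (e2.trans e3.symm))

theorem ext_agb_num (y y' : BName B) : Ext (fun m : BName B => agb (VB B) m y y') :=
  Ext.iInf fun k => (ext_mem_right k).himp (Ext.const _)

/-- Existence of a number. -/
theorem iSup_om {φ : BName B → B} (h : Ext φ) :
    (⨆ m, (VB B).mem m (check om) ⊓ φ m) ≤ ⨆ k : ℕ, φ (check (nn k)) := by
  rw [iSup_VBcheck h]
  refine iSup_le fun m => iSup_le fun hm => ?_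
  obtain ⟨k, rfl⟩ := H36.mem_om.1 hm
  exact le_iSup (fun k : ℕ => φ (check (nn k))) k

section

variable {T : Type u} {x : T → ℕ → B} {Z f : BName B} {z : W.{u} → BName B} {Γ : B}

theorem rel_cod (hfun : Γ ≤ (VB B).isFun f (stN x) Z) (a y : BName B) :
    Γ ⊓ (VB B).rel f a y ≤ bmem y Z := by
  have h1 : Γ ≤ ⨅ p, (VB B).mem p f ⇨ ⨆ x', ⨆ y', (VB B).mem x' (stN x) ⊓ (VB B).mem y' Z ⊓
      (VB B).isPair p x' y' := hfun.trans (inf_le_left.trans inf_le_left)
  rw [rel_eq]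
  refine (iInf_himp_apply h1 (opr a y) (Δ := Γ ⊓ bmem (opr a y) f) inf_le_left
    inf_le_right).trans ?_
  refine iSup_le fun x' => iSup_le fun y' => ?_
  rw [isPair_eq, beq_opr]
  exact (ext_mem_left Z).of_le' (x := y') (inf_le_right.trans inf_le_right)
    (inf_le_left.trans inf_le_right)

theorem le_iSup_rel (hz : ∀ y, Γ ⊓ bmem y Z ≤ ⨆ ξ, beq y (z ξ))
    (hfun : Γ ≤ (VB B).isFun f (stN x) Z) (t : T) :
    Γ ≤ ⨆ ξ, (VB B).rel f (rlN (x t)) (z ξ) := by
  have h1 : Γ ≤ ⨅ a, (VB B).mem a (stN x) ⇨ ⨆ y, (VB B).rel f a y :=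
    hfun.trans (inf_le_left.trans inf_le_right)
  have h2 : Γ ≤ ⨆ y, (VB B).rel f (rlN (x t)) y := by
    refine iInf_himp_apply h1 (rlN (x t)) le_rfl ?_
    rw [VB_mem, H97.rlN_mem_stN]
    exact le_top
  refine (le_inf le_rfl h2).trans ?_
  rw [inf_iSup_eq]
  refine iSup_le fun y => ?_
  have h3 : Γ ⊓ (VB B).rel f (rlN (x t)) y ≤ ⨆ ξ, beq y (z ξ) :=
    (le_inf inf_le_left (rel_cod hfun _ _)).trans (hz y)
  refine (le_inf h3 inf_le_right).trans ?_
  rw [iSup_inf_eq]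
  exact iSup_mono fun ξ => ext_rel_trd f _ y (z ξ)

variable (x f z) in
/-- The typed embedding. -/
noncomputable def FF (t : T) (n : ℕ) : B := ⨆ ξ, (VB B).rel f (rlN (x t)) (z ξ) ⊓ dg (z ξ) n

theorem le_eqr (hfun : Γ ≤ (VB B).isFun f (stN x) Z) (t : T) (ξ : W.{u}) :
    Γ ⊓ (VB B).rel f (rlN (x t)) (z ξ) ≤ eqr (FF x f z t) (dg (z ξ)) := by
  have h1 : Γ ≤ ⨅ a, ⨅ y, ⨅ y', (VB B).rel f a y ⊓ (VB B).rel f a y' ⇨ (VB B).eq y y' :=
    hfun.trans inf_le_right
  rw [H97.eqr_eq]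
  refine le_iInf fun n => le_inf ?_ ?_
  · rw [le_himp_iff]
    exact (le_inf (inf_le_left.trans inf_le_right) inf_le_right).trans
      (le_iSup (fun ξ => (VB B).rel f (rlN (x t)) (z ξ) ⊓ dg (z ξ) n) ξ)
  · rw [le_himp_iff, FF, inf_iSup_eq]
    refine iSup_le fun η => ?_
    refine (ext_mem_right (check (nn n))).of_le (x := z η) (y := z ξ) ?_
      (inf_le_right.trans inf_le_right)
    have h2 := h1.trans ((iInf_le _ (rlN (x t))).trans ((iInf_le _ (z η)).trans (iInf_le _ (z ξ))))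
    refine le_trans (le_inf (inf_le_left.trans (inf_le_left.trans h2)) ?_) himp_inf_le
    exact le_inf (inf_le_right.trans inf_le_left) (inf_le_left.trans inf_le_right)

end

/-- VF. -/
theorem vf (_ : VcStatement.{u}) : VfStatement.{u} := by
  intro B _ Γ T x Z f z hz _ hE
  have hfun : Γ ≤ (VB B).isFun f (stN x) Z :=
    hE.trans (inf_le_left.trans (inf_le_left.trans inf_le_left))
  have hcont : Γ ≤ ⨅ a, ⨅ y, ⨅ n, (VB B).rel f a y ⊓ (VB B).mem n (check om) ⇨
      ⨆ m, (VB B).mem m (check om) ⊓ ⨅ a', ⨅ y', (VB B).rel f a' y' ⊓ agb (VB B) m a a' ⇨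
        agb (VB B) n y y' := hE.trans (inf_le_left.trans inf_le_right)
  have hinv : Γ ≤ ⨅ a, ⨅ y, ⨅ n, (VB B).rel f a y ⊓ (VB B).mem n (check om) ⇨
      ⨆ m, (VB B).mem m (check om) ⊓ ⨅ a', ⨅ y', (VB B).rel f a' y' ⊓ agb (VB B) m y y' ⇨
        agb (VB B) n a a' := hE.trans inf_le_right
  have hR := fun t => le_iSup_rel (z := z) hz hfun t
  have heq := fun t ξ => le_eqr (z := z) hfun t ξ
  have hn : ∀ n : ℕ, (VB B).mem (check (nn n)) (check om) = ⊤ := fun n =>
    mem_check_of_mem (H36.nn_mem_om n)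
  -- it suffices to prove an inequality below each relation
  have key : ∀ (t : T) (c : B), (∀ ξ, Γ ⊓ (VB B).rel f (rlN (x t)) (z ξ) ≤ c) → ∀ Δ ≤ Γ, Δ ≤ c := by
    intro t c h Δ hΔ
    refine hΔ.trans ((le_inf le_rfl (hR t)).trans ?_)
    rw [inf_iSup_eq]
    exact iSup_le h
  have key2 : ∀ (t : T) (c Δ : B), Δ ≤ Γ → (∀ ξ, Δ ⊓ (VB B).rel f (rlN (x t)) (z ξ) ≤ c) →
      Δ ≤ c := by
    intro t c Δ hΔ h
    refine (le_inf le_rfl (hΔ.trans (hR t))).trans ?_
    rw [inf_iSup_eq]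
    exact iSup_le h
  refine ⟨FF x f z, ⟨fun t => ?_, fun t n => ?_, fun t n => ?_⟩⟩
  · refine key t _ (fun ξ => ?_) Γ le_rfl
    exact (heq t ξ).trans (le_iSup (fun ξ => eqr (FF x f z t) (dg (z ξ))) ξ)
  · refine key t _ (fun ξ => ?_) Γ le_rfl
    have h1 : Γ ⊓ (VB B).rel f (rlN (x t)) (z ξ) ≤ ⨆ m, (VB B).mem m (check om) ⊓
        ⨅ a', ⨅ y', (VB B).rel f a' y' ⊓ agb (VB B) m (rlN (x t)) a' ⇨
          agb (VB B) (check (nn n)) (z ξ) y' := by
      refine le_trans (le_inf (inf_le_left.trans (hcont.trans ((iInf_le _ (rlN (x t))).trans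
        ((iInf_le _ (z ξ)).trans (iInf_le _ (check (nn n))))))) ?_) himp_inf_le
      exact le_inf inf_le_right (by rw [hn]; exact le_top)
    have h2 := h1.trans (iSup_om (Ext.iInf fun a' => Ext.iInf fun y' =>
      ((Ext.const _).inf (ext_agb_num (rlN (x t)) a')).himp (Ext.const _)))
    refine (le_inf le_rfl h2).trans ?_
    rw [inf_iSup_eq]
    refine iSup_mono fun m => le_iInf fun t' => ?_
    rw [le_himp_iff]
    refine key2 t' _ _ (inf_le_left.trans (inf_le_left.trans inf_le_left)) fun η => ?_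
    refine agn_of (b := dg (z ξ)) (c := dg (z η)) ?_ ?_ ?_
    · exact (inf_le_left.trans (inf_le_left.trans inf_le_left)).trans (heq t ξ)
    · rw [← agb_dg]
      refine le_trans (le_inf (inf_le_left.trans (inf_le_left.trans (inf_le_right.trans
        ((iInf_le _ (rlN (x t'))).trans (iInf_le _ (z η)))))) ?_) himp_inf_le
      refine le_inf inf_le_right ?_
      rw [H97.agb_rlN]
      exact inf_le_left.trans inf_le_right
    · exact (le_inf (inf_le_left.trans (inf_le_left.trans (inf_le_left.trans inf_le_left)))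
        inf_le_right).trans (heq t' η)
  · refine key t _ (fun ξ => ?_) Γ le_rfl
    have h1 : Γ ⊓ (VB B).rel f (rlN (x t)) (z ξ) ≤ ⨆ m, (VB B).mem m (check om) ⊓
        ⨅ a', ⨅ y', (VB B).rel f a' y' ⊓ agb (VB B) m (z ξ) y' ⇨
          agb (VB B) (check (nn n)) (rlN (x t)) a' := by
      refine le_trans (le_inf (inf_le_left.trans (hinv.trans ((iInf_le _ (rlN (x t))).trans
        ((iInf_le _ (z ξ)).trans (iInf_le _ (check (nn n))))))) ?_) himp_inf_le
      exact le_inf inf_le_right (by rw [hn]; exact le_top)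
    have h2 := h1.trans (iSup_om (Ext.iInf fun a' => Ext.iInf fun y' =>
      ((Ext.const _).inf (ext_agb_num (z ξ) y')).himp (Ext.const _)))
    refine (le_inf le_rfl h2).trans ?_
    rw [inf_iSup_eq]
    refine iSup_mono fun m => le_iInf fun t' => ?_
    rw [le_himp_iff]
    refine key2 t' _ _ (inf_le_left.trans (inf_le_left.trans inf_le_left)) fun η => ?_
    rw [← H97.agb_rlN (x t) (x t') n]
    refine le_trans (le_inf (inf_le_left.trans (inf_le_left.trans (inf_le_right.trans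
      ((iInf_le _ (rlN (x t'))).trans (iInf_le _ (z η)))))) ?_) himp_inf_le
    refine le_inf inf_le_right ?_
    rw [agb_dg]
    refine agn_of (b := FF x f z t) (c := FF x f z t') ?_ ?_ ?_
    · rw [eqr_symm]
      exact (inf_le_left.trans (inf_le_left.trans inf_le_left)).trans (heq t ξ)
    · exact inf_le_left.trans inf_le_right
    · rw [eqr_symm]
      exact (le_inf (inf_le_left.trans (inf_le_left.trans (inf_le_left.trans inf_le_left)))
        inf_le_right).trans (heq t' η)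

end Pool.Agent.Lib.MP_a78e1f_lc.H70
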